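import Pool.Agent.W192.HK.Parts

/-! Powers of a ray class character. -/

set_option autoImplicit false

namespace Pool.Agent.W283.HK.PW

open Pool.Agent.W192.HK

theorem h_pw (_h1 : H_BASIC) : H_PW := by
  intro R ω hR c χ hχ d hd a ha
  have key : ∀ I, pw χ a I = 0 ↔ χ I = 0 := by
    intro I
    unfold pw
    by_cases h : χ I = 0
    · simp [h]
    · rw [if_neg h]
      exact ⟨fun h' => absurd h' (pow_ne_zero _ h), fun h' => absurd h' h⟩
  refine ⟨hχ.ne, ?_, ?_, ?_, ?_⟩
  · intro I J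
    unfold pw
    by_cases hI : χ I = 0
    · simp [hχ.mul, hI]
    by_cases hJ : χ J = 0
    · simp [hχ.mul, hJ]
    have h : χ (I * J) ≠ 0 := by
      rw [hχ.mul]
      exact mul_ne_zero hI hJ
    rw [if_neg h, if_neg hI, if_neg hJ, hχ.mul, mul_pow]
  · intro I
    rw [key, hχ.zero]
  · intro α hα hc
    have h := hχ.princ α hα hc
    rw [pow_zero] at h ⊢
    unfold pw
    rw [h]
    simp
  · intro q' hq'
    obtain ⟨α, hα, h1, h2, h3⟩ := hχ.prim q' hq'
    refine ⟨α, hα, h1, h2, ?_⟩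
    rw [pow_zero] at h3 ⊢
    have hz : χ (sp α) ≠ 0 := by
      intro h0
      rcases (hχ.zero _).1 h0 with h | h
      · exact hα (Ideal.span_singleton_eq_bot.1 h)
      · exact h h2
    intro h4
    unfold pw at h4
    rw [if_neg hz] at h4
    have h5 := hd.pow _ hz
    apply h3
    have h6 := Nat.dvd_gcd (orderOf_dvd_of_pow_eq_one h4) (orderOf_dvd_of_pow_eq_one h5)
    rw [ha] at h6
    exact orderOf_eq_one_iff.1 (Nat.dvd_one.1 h6)

end Pool.Agent.W283.HK.PW
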