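import Pool.Agent.W192.HK.Parts0
import Pool.Agent.W108.TW.Mellin

/-! # Project HK0 (helper192), HK0-AFE (helper283): continuation and central value at 1/2 -/

set_option autoImplicit false

open Complex Filter Topology Set MeasureTheory

namespace Pool.Agent.W283.HK.AFE0

open Pool.Agent.W192.HK
open Pool.Agent.W108.TW

/-! ### the weight function -/

lemma g_int : IntegrableOn (fun t : ℝ => Real.exp (-t) * t ^ (-1 / 2 : ℝ)) (Ioi 0) := by
  have h := Real.GammaIntegral_convergent (s := 1 / 2) (by norm_num)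
  rw [show (1 / 2 - 1 : ℝ) = -1 / 2 by norm_num] at h
  exact h

lemma v0_int (a t0 : ℝ) (ha : 0 < a) (ht0 : 0 ≤ t0) :
    IntegrableOn (fun t : ℝ => t ^ (-1 / 2 : ℝ) * Real.exp (-a * t)) (Ioi t0) ∧
    ∫ t in Ioi t0, t ^ (-1 / 2 : ℝ) * Real.exp (-a * t) =
      a ^ (-1 / 2 : ℝ) * (Real.sqrt Real.pi * V0 (a * t0)) := by
  have hsq : 0 < Real.sqrt Real.pi := Real.sqrt_pos.2 Real.pi_pos
  have e1 : ∀ t ∈ Ioi t0, a ^ (1 / 2 : ℝ) * (Real.exp (-(a * t)) * (a * t) ^ (-1 / 2 : ℝ)) =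
      t ^ (-1 / 2 : ℝ) * Real.exp (-a * t) := by
    intro t ht
    have ht' : 0 ≤ t := le_trans ht0 (le_of_lt ht)
    rw [Real.mul_rpow ha.le ht', neg_mul]
    have : a ^ (1 / 2 : ℝ) * a ^ (-1 / 2 : ℝ) = 1 := by
      rw [← Real.rpow_add ha]; norm_num
    calc a ^ (1 / 2 : ℝ) * (Real.exp (-(a * t)) * (a ^ (-1 / 2 : ℝ) * t ^ (-1 / 2 : ℝ)))
        = (a ^ (1 / 2 : ℝ) * a ^ (-1 / 2 : ℝ)) * (t ^ (-1 / 2 : ℝ) * Real.exp (-(a * t))) := by ring
      _ = _ := by rw [this, one_mul]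
  have hi : IntegrableOn (fun t : ℝ => Real.exp (-t) * t ^ (-1 / 2 : ℝ)) (Ioi (a * t0)) :=
    g_int.mono_set (Ioi_subset_Ioi (by positivity))
  have hi2 := ((integrableOn_Ioi_comp_mul_left_iff
    (fun t : ℝ => Real.exp (-t) * t ^ (-1 / 2 : ℝ)) t0 ha).2 hi).const_mul (a ^ (1 / 2 : ℝ))
  constructor
  · exact IntegrableOn.congr_fun hi2 e1 measurableSet_Ioi
  · rw [← setIntegral_congr_fun measurableSet_Ioi e1, integral_const_mul]
    rw [integral_comp_mul_left_Ioi (fun t : ℝ => Real.exp (-t) * t ^ (-1 / 2 : ℝ)) t0 ha]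
    unfold V0
    rw [smul_eq_mul]
    have h2 : a ^ (1 / 2 : ℝ) * a⁻¹ = a ^ (-1 / 2 : ℝ) := by
      rw [← Real.rpow_neg_one, ← Real.rpow_add ha]; norm_num
    have h3 : Real.sqrt Real.pi * (1 / Real.sqrt Real.pi) = 1 := by field_simp
    calc a ^ (1 / 2 : ℝ) * (a⁻¹ * ∫ t in Ioi (a * t0), Real.exp (-t) * t ^ (-1 / 2 : ℝ))
        = (a ^ (1 / 2 : ℝ) * a⁻¹) * ∫ t in Ioi (a * t0), Real.exp (-t) * t ^ (-1 / 2 : ℝ) := by
          ring
      _ = a ^ (-1 / 2 : ℝ) * ((Real.sqrt Real.pi * (1 / Real.sqrt Real.pi)) *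
          ∫ t in Ioi (a * t0), Real.exp (-t) * t ^ (-1 / 2 : ℝ)) := by rw [h2, h3, one_mul]
      _ = _ := by ring

lemma v0_nonneg (x : ℝ) (hx : 0 ≤ x) : 0 ≤ V0 x := by
  unfold V0
  refine mul_nonneg (by positivity) (setIntegral_nonneg measurableSet_Ioi fun t ht => ?_)
  have : 0 ≤ t := le_trans hx (le_of_lt ht)
  positivity

lemma v0_bound : ∃ C : ℝ, 0 < C ∧ ∀ x : ℝ, 0 ≤ x → |V0 x| ≤ C * Real.exp (-(x / 2)) := by
  have hsq : 0 < Real.sqrt Real.pi := Real.sqrt_pos.2 Real.pi_pos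
  set J : ℝ := ∫ t in Ioi (0 : ℝ), t ^ (-1 / 2 : ℝ) * Real.exp (-(1 / 2) * t) with hJ
  have hi := (v0_int (1 / 2) 0 (by norm_num) le_rfl).1
  have hJ0 : 0 ≤ J := setIntegral_nonneg measurableSet_Ioi fun t (ht : 0 < t) => by positivity
  refine ⟨1 / Real.sqrt Real.pi * (J + 1), by positivity, fun x hx => ?_⟩
  rw [abs_of_nonneg (v0_nonneg x hx)]
  unfold V0
  rw [mul_assoc]
  refine mul_le_mul_of_nonneg_left ?_ (by positivity)
  have h1 : ∫ t in Ioi x, Real.exp (-t) * t ^ (-1 / 2 : ℝ) ≤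
      ∫ t in Ioi x, Real.exp (-(x / 2)) * (t ^ (-1 / 2 : ℝ) * Real.exp (-(1 / 2) * t)) := by
    refine setIntegral_mono_on (g_int.mono_set (Ioi_subset_Ioi hx))
      ((hi.mono_set (Ioi_subset_Ioi hx)).const_mul _) measurableSet_Ioi fun t ht => ?_
    have ht' : x < t := ht
    have ht0 : 0 < t := by linarith
    have e : Real.exp (-t) = Real.exp (-(t / 2)) * Real.exp (-(1 / 2) * t) := by
      rw [← Real.exp_add]; congr 1; ring
    have e2 : Real.exp (-(t / 2)) ≤ Real.exp (-(x / 2)) := Real.exp_le_exp.2 (by linarith)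
    rw [e]
    calc Real.exp (-(t / 2)) * Real.exp (-(1 / 2) * t) * t ^ (-1 / 2 : ℝ)
        = Real.exp (-(t / 2)) * (t ^ (-1 / 2 : ℝ) * Real.exp (-(1 / 2) * t)) := by ring
      _ ≤ _ := mul_le_mul_of_nonneg_right e2 (by positivity)
  refine h1.trans ?_
  rw [integral_const_mul]
  have h2 : ∫ t in Ioi x, t ^ (-1 / 2 : ℝ) * Real.exp (-(1 / 2) * t) ≤ J := by
    refine setIntegral_mono_set hi ?_ (Ioi_subset_Ioi hx).eventuallyLE
    refine (ae_restrict_iff' measurableSet_Ioi).2 (Eventually.of_forall fun t (ht : 0 < t) => ?_)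
    show (0 : ℝ) ≤ _
    positivity
  have h3 := Real.exp_pos (-(x / 2))
  nlinarith

/-! ### the Mellin transform -/

/-- the power `t ^ (-1/2)` -/
noncomputable def rh (t : ℝ) : ℂ := ((t ^ (-1 / 2 : ℝ) : ℝ) : ℂ)

lemma rh_cpow {t : ℝ} (ht : 0 < t) : (t : ℂ) ^ ((1 / 2 : ℂ) - 1) = rh t := by
  unfold rh
  rw [Complex.ofReal_cpow ht.le]
  congr 1
  push_cast
  norm_num

lemma int_Th {b : ℕ → ℂ} {m C : ℝ} (hb0 : b 0 = 0)
    (hb : ∀ n : ℕ, 1 ≤ n → ‖b n‖ ≤ C * (n : ℝ) ^ m) {c : ℝ} (hc : 0 < c) {t0 : ℝ} (ht : 0 < t0) :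
    ∫ t in Ioi t0, rh t * Th b c t =
      ∑' n : ℕ, b n * (((c * n) ^ (-1 / 2 : ℝ) * (Real.sqrt Real.pi * V0 (c * n * t0)) : ℝ) : ℂ) := by
  unfold Th
  obtain ⟨D, hD, hVb⟩ := v0_bound
  have hsq : 0 < Real.sqrt Real.pi := Real.sqrt_pos.2 Real.pi_pos
  have hint : ∀ n : ℕ, Integrable (fun t : ℝ => rh t *
      (b n * (Real.exp (-(c * n) * t) : ℂ))) (volume.restrict (Ioi t0)) := by
    intro n
    rcases Nat.eq_zero_or_pos n with rfl | hn
    · rw [hb0]
      simp only [zero_mul, mul_zero]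
      exact integrable_zero _ _ _
    · have hn' : (0 : ℝ) < n := by exact_mod_cast hn
      have h0 : 0 < c * n := by positivity
      have h1 := (v0_int (c * n) t0 h0 ht.le).1
      refine ((Integrable.ofReal (𝕜 := ℂ) h1).const_mul (b n)).congr ?_
      refine Eventually.of_forall fun t => ?_
      simp only [rh, Complex.coe_algebraMap, RCLike.ofReal_mul]
      push_cast
      ring
  have hnorm : ∀ n : ℕ, ∫ t in Ioi t0, ‖rh t *
      (b n * (Real.exp (-(c * n) * t) : ℂ))‖ ≤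
      |C| * (c ^ (-1 / 2 : ℝ) * (Real.sqrt Real.pi * D)) *
        ((n : ℝ) ^ m * Real.exp (-((c * t0 / 2) * n))) := by
    intro n
    rcases Nat.eq_zero_or_pos n with rfl | hn
    · rw [hb0]
      simp only [zero_mul, mul_zero, norm_zero, integral_zero]
      positivity
    · have hn' : (1 : ℝ) ≤ n := by exact_mod_cast hn
      have h0 : 0 < c * n := by positivity
      have e1 : ∀ t ∈ Ioi t0, ‖rh t * (b n * (Real.exp (-(c * n) * t) : ℂ))‖ =
          ‖b n‖ * (t ^ (-1 / 2 : ℝ) * Real.exp (-(c * n) * t)) := by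
        intro t (ht' : t0 < t)
        have : 0 < t := by linarith
        unfold rh
        rw [norm_mul, norm_mul, Complex.norm_real, Complex.norm_real, Real.norm_eq_abs,
          Real.norm_eq_abs, Real.abs_exp, abs_of_nonneg (by positivity : (0:ℝ) ≤ t ^ (-1 / 2 : ℝ))]
        ring
      rw [setIntegral_congr_fun measurableSet_Ioi e1, integral_const_mul,
        (v0_int (c * n) t0 h0 ht.le).2]
      have h1 : ‖b n‖ ≤ |C| * (n : ℝ) ^ m :=
        (hb n hn).trans (mul_le_mul_of_nonneg_right (le_abs_self C) (by positivity))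
      have h2 : (c * n) ^ (-1 / 2 : ℝ) * (Real.sqrt Real.pi * V0 (c * n * t0)) ≤
          c ^ (-1 / 2 : ℝ) * (Real.sqrt Real.pi * D) * Real.exp (-((c * t0 / 2) * n)) := by
        have h3 : V0 (c * n * t0) ≤ D * Real.exp (-((c * t0 / 2) * n)) := by
          refine (le_abs_self _).trans ((hVb (c * n * t0) (by positivity)).trans
            (le_of_eq ?_))
          congr 3
          ring
        have h4 : (c * n) ^ (-1 / 2 : ℝ) ≤ c ^ (-1 / 2 : ℝ) := by
          refine Real.rpow_le_rpow_of_nonpos hc ?_ (by norm_num)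
          nlinarith
        have h5 := v0_nonneg (c * n * t0) (by positivity)
        calc _ ≤ c ^ (-1 / 2 : ℝ) * (Real.sqrt Real.pi * V0 (c * n * t0)) :=
              mul_le_mul_of_nonneg_right h4 (by positivity)
          _ ≤ c ^ (-1 / 2 : ℝ) * (Real.sqrt Real.pi * (D * Real.exp (-((c * t0 / 2) * n)))) :=
              mul_le_mul_of_nonneg_left (mul_le_mul_of_nonneg_left h3 hsq.le) (by positivity)
          _ = _ := by ring
      calc ‖b n‖ * ((c * n) ^ (-1 / 2 : ℝ) * (Real.sqrt Real.pi * V0 (c * n * t0))) ≤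
            ‖b n‖ * (c ^ (-1 / 2 : ℝ) * (Real.sqrt Real.pi * D) *
              Real.exp (-((c * t0 / 2) * n))) := mul_le_mul_of_nonneg_left h2 (norm_nonneg _)
        _ ≤ (|C| * (n : ℝ) ^ m) * (c ^ (-1 / 2 : ℝ) * (Real.sqrt Real.pi * D) *
              Real.exp (-((c * t0 / 2) * n))) := mul_le_mul_of_nonneg_right h1 (by positivity)
        _ = _ := by ring
  have hsum : Summable fun n : ℕ => ∫ t in Ioi t0, ‖rh t *
      (b n * (Real.exp (-(c * n) * t) : ℂ))‖ := by
    refine Summable.of_nonneg_of_le (fun n => integral_nonneg fun t => norm_nonneg _) hnorm ?_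
    exact (summable_maj (c * t0 / 2) (by positivity) m).mul_left _
  have e0 : ∀ t : ℝ, rh t * ∑' n : ℕ, b n * (Real.exp (-(c * n) * t) : ℂ) =
      ∑' n : ℕ, rh t * (b n * (Real.exp (-(c * n) * t) : ℂ)) := by
    intro t
    rw [tsum_mul_left]
  simp only [e0]
  rw [← integral_tsum_of_summable_integral_norm hint hsum]
  refine tsum_congr fun n => ?_
  rcases Nat.eq_zero_or_pos n with rfl | hn
  · rw [hb0]; simp
  · have hn' : (0 : ℝ) < n := by exact_mod_cast hn
    have h0 : 0 < c * n := by positivity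
    rw [← (v0_int (c * n) t0 h0 ht.le).2]
    have e2 : ∀ t : ℝ, rh t * (b n * (Real.exp (-(c * n) * t) : ℂ)) =
        b n * ((t ^ (-1 / 2 : ℝ) * Real.exp (-(c * n) * t) : ℝ) : ℂ) := by
      intro t
      unfold rh
      push_cast
      ring
    simp only [e2]
    rw [integral_const_mul, integral_complex_ofReal]

/-- the lower part of the integral -/
lemma int_low (g g' : ℝ → ℂ) (w : ℂ) (t0 : ℝ) (ht : 0 < t0)
    (h : ∀ t : ℝ, 0 < t → g (t⁻¹) = w * (t : ℂ) * g' t) :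
    ∫ t in Ioc 0 t0, rh t * g t = w * ∫ t in Ioi t0⁻¹, rh t * g' t := by
  have h1 : ∫ t in Ioc 0 t0, rh t * g t = mellin ((Iic t0).indicator g) (1 / 2) := by
    rw [mellin]
    have e0 : ∀ t ∈ Ioi (0 : ℝ), (t : ℂ) ^ ((1 / 2 : ℂ) - 1) • (Iic t0).indicator g t =
        (Iic t0).indicator (fun t : ℝ => rh t * g t) t := by
      intro t (ht0 : 0 < t)
      rw [rh_cpow ht0]
      by_cases ht' : t ∈ Iic t0
      · rw [indicator_of_mem ht', indicator_of_mem ht', smul_eq_mul]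
      · rw [indicator_of_notMem ht', indicator_of_notMem ht', smul_zero]
    rw [setIntegral_congr_fun measurableSet_Ioi e0, setIntegral_indicator measurableSet_Iic]
    rfl
  have h2 : mellin ((Iic t0).indicator g) (1 / 2) =
      mellin (fun t => (Iic t0).indicator g t⁻¹) (-(1 / 2 : ℂ)) := by
    rw [mellin_comp_inv, neg_neg]
  rw [h1, h2, mellin]
  have h3 : ∀ t ∈ Ioi (0 : ℝ), (t : ℂ) ^ (-(1 / 2 : ℂ) - 1) • (Iic t0).indicator g t⁻¹ =
      (Ici t0⁻¹).indicator (fun t : ℝ => w * (rh t * g' t)) t := by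
    intro t (ht' : 0 < t)
    by_cases hh : t⁻¹ ≤ t0
    · have hh' : t0⁻¹ ≤ t := inv_le_of_inv_le₀ ht' hh
      rw [indicator_of_mem (show t⁻¹ ∈ Iic t0 from hh), indicator_of_mem (show t ∈ Ici t0⁻¹ from hh')]
      rw [h t ht', smul_eq_mul]
      have htc : (t : ℂ) ≠ 0 := by exact_mod_cast ht'.ne'
      have e2 : (t : ℂ) ^ (-(1 / 2 : ℂ) - 1) * (t : ℂ) = rh t := by
        rw [← rh_cpow ht']
        nth_rewrite 2 [← Complex.cpow_one (t : ℂ)]
        rw [← Complex.cpow_add _ _ htc]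
        congr 1
        norm_num
      rw [← e2]
      ring
    · have hh' : ¬ t0⁻¹ ≤ t := fun h' => hh (inv_le_of_inv_le₀ ht h')
      rw [indicator_of_notMem (show t⁻¹ ∉ Iic t0 from hh),
        indicator_of_notMem (show t ∉ Ici t0⁻¹ from hh'), smul_zero]
  rw [setIntegral_congr_fun measurableSet_Ioi h3, setIntegral_indicator measurableSet_Ici]
  have h4 : Ioi (0 : ℝ) ∩ Ici t0⁻¹ = Ici t0⁻¹ := by
    apply inter_eq_right.2
    intro x hx
    have : 0 < t0⁻¹ := by positivity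
    exact lt_of_lt_of_le this hx
  rw [h4, integral_Ici_eq_integral_Ioi, integral_const_mul]

theorem mellinH {b : ℕ → ℂ} {m C R : ℝ} (hR : 0 < R) (hb0 : b 0 = 0)
    (hm : 0 ≤ m)
    (hb : ∀ n : ℕ, 1 ≤ n → ‖b n‖ ≤ C * (n : ℝ) ^ m) {w : ℂ} (hw : w ≠ 0)
    (hfe : ∀ t : ℝ, 0 < t → ∑' n : ℕ, b n * (Real.exp (-(2 * Real.pi * n / R) / t) : ℂ) =
      w * (t : ℂ) * ∑' n : ℕ, (starRingEnd ℂ) (b n) *
        (Real.exp (-(2 * Real.pi * n / R) * t) : ℂ)) :
    ∃ F : ℂ → ℂ, Differentiable ℂ F ∧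
      (∀ s : ℂ, m + 2 < s.re → F s = ∑' n : ℕ, b n * (n : ℂ) ^ (-s)) ∧
      ∀ X Y : ℝ, 0 < X → 0 < Y → X * Y = R ^ 2 / (4 * Real.pi ^ 2) →
        F (1 / 2) = ∑' n : ℕ, b n / (Real.sqrt n : ℂ) * (V0 (n / X) : ℂ) +
          w * ∑' n : ℕ, (starRingEnd ℂ) (b n) / (Real.sqrt n : ℂ) * (V0 (n / Y) : ℂ) := by
  have hpi := Real.pi_pos
  set c : ℝ := 2 * Real.pi / R with hc'
  have hc : 0 < c := by positivity
  have hb' : ∀ n : ℕ, 1 ≤ n → ‖(starRingEnd ℂ) (b n)‖ ≤ C * (n : ℝ) ^ m := by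
    intro n hn; rw [RCLike.norm_conj]; exact hb n hn
  have hb0' : (starRingEnd ℂ) (b 0) = 0 := by rw [hb0, map_zero]
  have hrel : ∀ x : ℝ, 0 < x → Th b c (1 / x) =
      w * (x : ℂ) * Th (fun n => (starRingEnd ℂ) (b n)) c x := by
    intro x hx
    have h := hfe x hx
    rw [Th, Th]
    have e1 : ∀ n : ℕ, -(c * n) * (1 / x) = -(2 * Real.pi * n / R) / x := by
      intro n; rw [hc']; ring
    have e2 : ∀ n : ℕ, -(c * n) * x = -(2 * Real.pi * n / R) * x := by
      intro n; rw [hc']; ring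
    simp only [e1, e2]
    exact h
  let P : WeakFEPair ℂ :=
    { f := Th b c
      g := Th (fun n => (starRingEnd ℂ) (b n)) c
      k := 1
      ε := w
      f₀ := 0
      g₀ := 0
      hf_int := (continuousOn_Th hb0 hb hc).locallyIntegrableOn measurableSet_Ioi
      hg_int := (continuousOn_Th hb0' hb' hc).locallyIntegrableOn measurableSet_Ioi
      hk := by positivity
      hε := hw
      h_feq := by
        intro x (hx : 0 < x)
        rw [hrel x hx, smul_eq_mul]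
        congr 2
        rw [Real.rpow_one]
      hf_top := Th_isBigO hb0 hb hc
      hg_top := Th_isBigO hb0' hb' hc }
  have hP : IsStrongFEPair P := ⟨rfl, rfl⟩
  have hΛf : P.Λ = mellin (Th b c) := hP.Λ_eq
  have hcC : (c : ℂ) ≠ 0 := by exact_mod_cast hc.ne'
  let F : ℂ → ℂ := fun s => P.Λ s * (c : ℂ) ^ s * (Complex.Gamma s)⁻¹
  refine ⟨F, ?_, ?_, ?_⟩
  · -- differentiable
    have h1 : Differentiable ℂ (fun s : ℂ => P.Λ s) := hP.differentiable_Λ
    have h2 : Differentiable ℂ (fun s : ℂ => (c : ℂ) ^ s) := by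
      intro s
      exact (DifferentiableAt.const_cpow (by fun_prop) (Or.inl hcC))
    have h3 : Differentiable ℂ (fun s : ℂ => (Complex.Gamma s)⁻¹) :=
      Complex.differentiable_one_div_Gamma
    exact (h1.mul h2).mul h3
  · -- Dirichlet series
    intro S hSm
    have hSpos : 0 < S.re := by linarith
    have hG : Complex.Gamma S ≠ 0 := Complex.Gamma_ne_zero_of_re_pos hSpos
    have h1 := hasSum_mellin (a := b) (p := fun n : ℕ => c * n) (F := Th b c) (s := S)
      (by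
        intro n
        rcases Nat.eq_zero_or_pos n with rfl | hn
        · exact Or.inl hb0
        · right
          have : (0 : ℝ) < n := by exact_mod_cast hn
          positivity) hSpos
      (by
        intro t (ht : 0 < t)
        exact (summable_term hb0 hb hc ht).hasSum)
      (by
        have h2 : Summable (fun n : ℕ => |C| / c ^ S.re * (n : ℝ) ^ (m - S.re)) :=
          (Real.summable_nat_rpow.mpr (by linarith)).mul_left _
        refine Summable.of_nonneg_of_le (fun n => by positivity) (fun n => ?_) h2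
        rcases Nat.eq_zero_or_pos n with rfl | hn
        · rw [hb0, norm_zero, zero_div]; positivity
        · have hn' : (0 : ℝ) < n := by exact_mod_cast hn
          have h3 : ‖b n‖ ≤ |C| * (n : ℝ) ^ m :=
            (hb n hn).trans (mul_le_mul_of_nonneg_right (le_abs_self C) (by positivity))
          rw [Real.mul_rpow hc.le hn'.le, Real.rpow_sub hn', div_mul_div_comm]
          exact div_le_div_of_nonneg_right h3 (by positivity))
    have h2 := h1.tsum_eq
    have h3 : F S = (∑' n : ℕ, Complex.Gamma S * b n / ((c * n : ℝ) : ℂ) ^ S) * (c : ℂ) ^ S *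
        (Complex.Gamma S)⁻¹ := by
      simp only [F]
      rw [hΛf, ← h2]
    have hcs : (c : ℂ) ^ S ≠ 0 := by
      rw [Complex.cpow_def_of_ne_zero hcC]; exact Complex.exp_ne_zero _
    rw [h3, ← tsum_mul_right, ← tsum_mul_right]
    refine tsum_congr (fun n => ?_)
    rcases Nat.eq_zero_or_pos n with rfl | hn
    · rw [hb0]; simp
    · have hn' : (n : ℂ) ≠ 0 := by exact_mod_cast hn.ne'
      have hnS : (n : ℂ) ^ S ≠ 0 := by
        rw [Complex.cpow_def_of_ne_zero hn']; exact Complex.exp_ne_zero _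
      rw [Complex.ofReal_mul, Complex.mul_cpow_ofReal_nonneg hc.le (Nat.cast_nonneg n),
        Complex.cpow_neg]
      simp only [Complex.ofReal_natCast]
      field_simp
  · -- the central value
    intro X Y hX hY hXY
    have hc2 : c ^ 2 * (X * Y) = 1 := by
      rw [hXY, hc']
      field_simp
      ring
    set t0 : ℝ := 1 / (c * X) with ht0
    have ht0p : 0 < t0 := by positivity
    have hsq : 0 < Real.sqrt Real.pi := Real.sqrt_pos.2 hpi
    have hsqC : (Real.sqrt Real.pi : ℂ) ≠ 0 := by exact_mod_cast hsq.ne'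
    have hGam : Complex.Gamma (1 / 2 : ℂ) = (Real.sqrt Real.pi : ℂ) := by
      rw [Complex.Gamma_one_half_eq, Real.sqrt_eq_rpow, Complex.ofReal_cpow hpi.le]
      push_cast
      rfl
    have hch : (c : ℂ) ^ (1 / 2 : ℂ) = ((c ^ (1 / 2 : ℝ) : ℝ) : ℂ) := by
      rw [Complex.ofReal_cpow hc.le]
      push_cast
      rfl
    have e1 : F (1 / 2) = ((c ^ (1 / 2 : ℝ) : ℝ) : ℂ) / (Real.sqrt Real.pi : ℂ) *
        ∫ t in Ioi (0 : ℝ), rh t * Th b c t := by
      simp only [F]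
      rw [hGam, hΛf, hch, mellin]
      have e0 : ∀ t ∈ Ioi (0 : ℝ), (t : ℂ) ^ ((1 / 2 : ℂ) - 1) • Th b c t = rh t * Th b c t := by
        intro t ht
        rw [rh_cpow ht, smul_eq_mul]
      rw [setIntegral_congr_fun measurableSet_Ioi e0]
      field_simp
    have hInt : IntegrableOn (fun t : ℝ => rh t * Th b c t) (Ioi 0) := by
      have h1 := (hP.hasMellin (1 / 2 : ℂ)).1
      have h2 : IntegrableOn (fun t : ℝ => (t : ℂ) ^ ((1 / 2 : ℂ) - 1) • Th b c t) (Ioi 0) := h1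
      refine IntegrableOn.congr_fun h2 (fun t ht => ?_) measurableSet_Ioi
      show (t : ℂ) ^ ((1 / 2 : ℂ) - 1) • Th b c t = rh t * Th b c t
      rw [rh_cpow ht, smul_eq_mul]
    have e2 : ∫ t in Ioi (0 : ℝ), rh t * Th b c t =
        (∫ t in Ioc (0 : ℝ) t0, rh t * Th b c t) +
          ∫ t in Ioi t0, rh t * Th b c t := by
      rw [← Ioc_union_Ioi_eq_Ioi ht0p.le]
      refine setIntegral_union ?_ measurableSet_Ioi (hInt.mono_set Ioc_subset_Ioi_self)
        (hInt.mono_set (Ioi_subset_Ioi ht0p.le))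
      rw [Set.disjoint_left]
      intro x hx hx'
      exact absurd hx.2 (not_le.2 hx')
    have e3 : ∫ t in Ioc (0 : ℝ) t0, rh t * Th b c t =
        w * ∫ t in Ioi t0⁻¹, rh t * Th (fun n => (starRingEnd ℂ) (b n)) c t := by
      refine int_low _ _ w t0 ht0p fun t ht => ?_
      rw [← one_div]
      exact hrel t ht
    have hcX : t0⁻¹ = c * X := by rw [ht0]; field_simp
    have hterm : ∀ (z : ℂ) (n : ℕ) (T Z : ℝ), (n = 0 → z = 0) → c * n * T = n / Z →
        ((c ^ (1 / 2 : ℝ) : ℝ) : ℂ) / (Real.sqrt Real.pi : ℂ) *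
          (z * (((c * n) ^ (-1 / 2 : ℝ) * (Real.sqrt Real.pi * V0 (c * n * T)) : ℝ) : ℂ)) =
        z / (Real.sqrt n : ℂ) * (V0 (n / Z) : ℂ) := by
      intro z n T Z hz hT
      rcases Nat.eq_zero_or_pos n with rfl | hn
      · rw [hz rfl]; simp
      · have hn' : (0 : ℝ) < n := by exact_mod_cast hn
        have hsn : (Real.sqrt n : ℂ) ≠ 0 := by
          have : Real.sqrt n ≠ 0 := (Real.sqrt_pos.2 hn').ne'
          exact_mod_cast this
        have h6 : (c * n) ^ (-1 / 2 : ℝ) = (c ^ (1 / 2 : ℝ))⁻¹ * (Real.sqrt n)⁻¹ := by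
          rw [Real.mul_rpow hc.le hn'.le, Real.sqrt_eq_rpow, ← Real.rpow_neg hc.le,
            ← Real.rpow_neg hn'.le]
          norm_num
        have h7 : ((c ^ (1 / 2 : ℝ) : ℝ) : ℂ) ≠ 0 := by
          have : c ^ (1 / 2 : ℝ) ≠ 0 := (Real.rpow_pos_of_pos hc _).ne'
          exact_mod_cast this
        rw [hT, h6]
        push_cast
        field_simp
    rw [e1, e2, e3, int_Th hb0 hb hc ht0p, int_Th hb0' hb' hc (inv_pos.2 ht0p), mul_add,
      add_comm, mul_left_comm, ← tsum_mul_left, ← tsum_mul_left]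
    congr 1
    · refine tsum_congr fun n => hterm (b n) n t0 X (fun h => by rw [h, hb0]) ?_
      rw [ht0]
      field_simp
    · congr 1
      refine tsum_congr fun n => hterm _ n t0⁻¹ Y (fun h => by rw [h, hb0']) ?_
      rw [hcX]
      have h2 : c * (c * X) = 1 / Y := by
        rw [eq_div_iff hY.ne']
        linarith
      calc c * n * (c * X) = n * (c * (c * X)) := by ring
        _ = _ := by rw [h2]; ring

end Pool.Agent.W283.HK.AFE0

/-! ### sums over a set with a norm (from W511.HK.AFE), identity theorem (from W388.TW.Good) -/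

namespace Pool.Agent.W283.HK.AFE0

section general

variable {ι : Type} {N : ι → ℕ}

theorem fib {f : ι → ℂ} (g : ℕ → ℂ) (h : Summable (fun α => f α * g (N α))) :
    ∑' α : ι, f α * g (N α) = ∑' n : ℕ, (∑' α : N ⁻¹' {n}, f α) * g n := by
  have h1 := h.hasSum.tsum_fiberwise N
  rw [← h1.tsum_eq]
  refine tsum_congr fun n => ?_
  rw [← tsum_mul_right]
  refine tsum_congr fun α => ?_
  rw [show N α = n from α.2]

theorem fib_fin {n : ℕ} (hf : (N ⁻¹' {n}).Finite) {E : Type} [AddCommMonoid E]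
    [TopologicalSpace E] [T2Space E] (f : ι → E) :
    ∑' α : N ⁻¹' {n}, f α = ∑ α ∈ hf.toFinset, f α := by
  classical
  rw [tsum_subtype (N ⁻¹' {n}) f, tsum_eq_sum (s := hf.toFinset)]
  · refine Finset.sum_congr rfl fun α hα => ?_
    rw [Set.indicator_of_mem (hf.mem_toFinset.1 hα)]
  · intro α hα
    rw [Set.indicator_of_notMem (fun h => hα (hf.mem_toFinset.2 h))]

theorem exp_bd (j : ℕ) {c : ℝ} (hc : 0 < c) : ∃ C : ℝ, 0 < C ∧ ∀ t : ℝ, 1 ≤ t →
    t ^ ((j : ℝ) + 1 / 2) * Real.exp (-(c * t)) ≤ C * t ^ (-(2 : ℝ)) := by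
  refine ⟨((j + 3).factorial : ℝ) / c ^ (j + 3), by positivity, fun t ht1 => ?_⟩
  have ht : 0 < t := by linarith
  have h1 := Real.pow_div_factorial_le_exp (c * t) (by positivity) (j + 3)
  have h2 : Real.exp (-(c * t)) ≤ ((j + 3).factorial : ℝ) / (c * t) ^ (j + 3) := by
    rw [Real.exp_neg, ← one_div, div_le_div_iff₀ (Real.exp_pos _) (by positivity), one_mul]
    rw [div_le_iff₀ (by positivity)] at h1
    linarith
  have h4 : t ^ ((j : ℝ) + 1 / 2) ≤ t ^ (j + 3) * t ^ (-(2 : ℝ)) := by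
    rw [← Real.rpow_natCast, ← Real.rpow_add ht]
    refine Real.rpow_le_rpow_of_exponent_le ht1 ?_
    push_cast
    linarith
  have h5 : 0 < t ^ (-(2 : ℝ)) := Real.rpow_pos_of_pos ht _
  calc t ^ ((j : ℝ) + 1 / 2) * Real.exp (-(c * t))
      ≤ (t ^ (j + 3) * t ^ (-(2 : ℝ))) * (((j + 3).factorial : ℝ) / (c * t) ^ (j + 3)) :=
        mul_le_mul h4 h2 (Real.exp_pos _).le (by positivity)
    _ = ((j + 3).factorial : ℝ) / c ^ (j + 3) * t ^ (-(2 : ℝ)) := by
        rw [mul_pow]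
        field_simp

theorem summ_f (hS : ∀ σ : ℝ, 1 < σ → Summable (fun I : ι => (N I : ℝ) ^ (-σ)))
    (j : ℕ) (f : ι → ℂ) (hf : ∀ I : ι, ‖f I‖ ≤ (N I : ℝ) ^ ((j : ℝ) + 1 / 2)) (g : ℕ → ℂ)
    {A c : ℝ} (hc : 0 < c) (hg : ∀ n : ℕ, 1 ≤ n → ‖g n‖ ≤ A * Real.exp (-(c * n))) :
    Summable (fun I : ι => f I * g (N I)) := by
  obtain ⟨C, hC, hb⟩ := exp_bd j hc
  have h1 : Summable (fun I : ι => |A| * C * (N I : ℝ) ^ (-(2 : ℝ))) :=
    (hS 2 (by norm_num)).mul_left _
  refine Summable.of_norm_bounded h1 (fun I => ?_)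
  rcases Nat.eq_zero_or_pos (N I) with h0 | h0
  · have h2 := hf I
    rw [h0, Nat.cast_zero, Real.zero_rpow (by positivity)] at h2
    have h3 : ‖f I‖ = 0 := le_antisymm h2 (norm_nonneg _)
    rw [norm_mul, h3, zero_mul]
    positivity
  · have hN1 : (1 : ℝ) ≤ N I := by exact_mod_cast h0
    have h2 := hg (N I) h0
    rw [norm_mul]
    calc ‖f I‖ * ‖g (N I)‖
        ≤ (N I : ℝ) ^ ((j : ℝ) + 1 / 2) * (|A| * Real.exp (-(c * N I))) := by
          refine mul_le_mul (hf I) (h2.trans ?_) (norm_nonneg _) (by positivity)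
          exact mul_le_mul_of_nonneg_right (le_abs_self A) (Real.exp_pos _).le
      _ = |A| * ((N I : ℝ) ^ ((j : ℝ) + 1 / 2) * Real.exp (-(c * N I))) := by ring
      _ ≤ |A| * (C * (N I : ℝ) ^ (-(2 : ℝ))) :=
          mul_le_mul_of_nonneg_left (hb _ hN1) (abs_nonneg _)
      _ = |A| * C * (N I : ℝ) ^ (-(2 : ℝ)) := by ring

end general

lemma ext_series (F : ℂ → ℂ) (hF : Differentiable ℂ F) (a : ℕ → ℂ) (ha0 : a 0 = 0)
    (hs : ∀ s : ℂ, 1 < s.re → Summable (fun n : ℕ => ‖a n * (n : ℂ) ^ (-s)‖)) (R : ℝ)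
    (h : ∀ s : ℂ, R < s.re → F s = ∑' n : ℕ, a n * (n : ℂ) ^ (-s)) (s : ℂ) (hs1 : 1 < s.re) :
    F s = ∑' n : ℕ, a n * (n : ℂ) ^ (-s) := by
  have hterm : ∀ (s : ℂ) (n : ℕ), LSeries.term a s n = a n * (n : ℂ) ^ (-s) := by
    intro s n
    unfold LSeries.term
    split_ifs with h0
    · rw [h0, ha0]; ring
    · rw [Complex.cpow_neg, div_eq_mul_inv]
  have hL : ∀ s : ℂ, LSeries a s = ∑' n : ℕ, a n * (n : ℂ) ^ (-s) := fun s =>
    tsum_congr fun n => hterm s n
  have hab : LSeries.abscissaOfAbsConv a ≤ ((1 : ℝ) : EReal) := by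
    refine LSeries.abscissaOfAbsConv_le_of_forall_lt_LSeriesSummable fun y hy => ?_
    unfold LSeriesSummable
    have := (hs (y : ℂ) (by simpa using hy)).of_norm
    refine this.congr fun n => (hterm _ n).symm
  have han : AnalyticOnNhd ℂ (LSeries a) {s : ℂ | 1 < s.re} := by
    refine (LSeries_analyticOnNhd _).mono fun s hs => ?_
    exact lt_of_le_of_lt hab (by
      have : (1 : ℝ) < s.re := hs
      exact_mod_cast this)
  have hFa : AnalyticOnNhd ℂ F {s : ℂ | 1 < s.re} := fun z _ => hF.analyticAt z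
  have hpre : IsPreconnected {s : ℂ | 1 < s.re} := (convex_halfSpace_re_gt 1).isPreconnected
  set z0 : ℂ := ((max R 1 + 1 : ℝ) : ℂ) with hz0
  have hz0r : z0.re = max R 1 + 1 := by simp [hz0]
  have hz1 : z0 ∈ {s : ℂ | 1 < s.re} := by
    show 1 < z0.re
    rw [hz0r]
    linarith [le_max_right R 1]
  have hev : F =ᶠ[𝓝 z0] LSeries a := by
    have : ∀ᶠ z in 𝓝 z0, R < z.re := by
      refine (Complex.continuous_re.isOpen_preimage _ isOpen_Ioi).mem_nhds ?_
      show R < z0.re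
      rw [hz0r]
      linarith [le_max_left R 1]
    filter_upwards [this] with z hz
    rw [h z hz, hL]
  have := hFa.eqOn_of_preconnected_of_eventuallyEq han hpre hz1 hev
  rw [this hs1, hL]

end Pool.Agent.W283.HK.AFE0

namespace Pool.Agent.W283.HK

open Pool.Agent.W192.HK
open Pool.Agent.W283.HK.AFE0 (mellinH v0_bound fib fib_fin summ_f ext_series)

theorem Wz_ne (h1 : H_BASIC) (h4 : H_GAUSS) {R : Subring ℂ} {ω : ℂ} (hR : QR R ω)
    {q : Ideal R} {ψ : Ideal R → ℂ} (hψ : HC 0 q ψ) (hqt : q ≠ ⊤)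
    {s : Finset (Ideal R)} {hh : Ideal R} {μ : R} {T : Finset R} (hS : Sys q s hh μ T) :
    Wz ω q hh μ T ψ ≠ 0 := by
  obtain ⟨-, b2, b3, b4, b5, -⟩ := h1 R ω hR
  have hq := b3 q hψ.ne
  have g1 := (h4 R ω hR _ q ψ hψ hqt s hh μ T hS).1
  have n1 : gT ω 0 ψ μ T ≠ 0 := by
    intro h
    rw [h, norm_zero] at g1
    norm_num at g1
    linarith
  have n3 : ψ hh ≠ 0 := by
    intro h
    rcases (hψ.zero hh).1 h with h | h
    · exact hS.ne h
    · exact h hS.cop
  have n4 : (Real.sqrt (nm q) : ℂ) ≠ 0 := by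
    have : Real.sqrt (nm q) ≠ 0 := (Real.sqrt_pos.2 (by linarith)).ne'
    exact_mod_cast this
  unfold Wz
  exact div_ne_zero n1 (mul_ne_zero n4 n3)

theorem n_afe (h1 : H_BASIC) (h2 : H_FP) (h3 : H_CNT) (h4 : H_GAUSS) (h5 : N_THETA) :
    N_AFE := by
  intro R ω hR q ψ hψ hqt s hh μ T hS
  have hW := Wz_ne h1 h4 hR hψ hqt hS
  obtain ⟨-, b2, b3, b4, b5, -⟩ := h1 R ω hR
  obtain ⟨c1, c2, C, hC, c3, -⟩ := h3 R ω hR
  obtain ⟨f1, -⟩ := h2 R ω hR _ q ψ hψ hqt
  have hψ0 : ψ ⊥ = 0 := (hψ.zero ⊥).2 (Or.inl rfl)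
  set N : Ideal R → ℕ := fun I => Nat.card (R ⧸ I) with hN
  have hNn : ∀ I : Ideal R, nm I = (N I : ℝ) := fun I => rfl
  have hNc : ∀ I : Ideal R, (nm I : ℂ) = (N I : ℂ) := fun I => by
    rw [hNn, Complex.ofReal_natCast]
  have hω := hR.im
  have hpi := Real.pi_pos
  have hq1 := b3 q hψ.ne
  have hsq : 0 < Real.sqrt (nm q) := Real.sqrt_pos.2 (by linarith)
  have hS1 : ∀ σ : ℝ, 1 < σ → Summable (fun I : Ideal R => (N I : ℝ) ^ (-σ)) := fun σ hσ => c2 σ hσ
  have hfz : ∀ I, N I = 0 → ψ I = 0 := by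
    intro I h0
    by_contra h
    have h6 : I ≠ ⊥ := fun h7 => h ((hψ.zero I).2 (Or.inl h7))
    have h7 := b3 I h6
    rw [hNn, h0] at h7
    norm_num at h7
  have hf1 : ∀ I, ‖ψ I‖ ≤ 1 := by
    intro I
    by_cases h : ψ I = 0
    · rw [h, norm_zero]
      exact zero_le_one
    · have h6 : I ≠ ⊥ ∧ IsCoprime I q := by
        constructor
        · intro h7
          exact h ((hψ.zero I).2 (Or.inl h7))
        · by_contra h7
          exact h ((hψ.zero I).2 (Or.inr h7))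
      have h7 := f1 I h6.1 h6.2
      rw [pow_zero] at h7
      have h8 := norm_nonneg (ψ I)
      nlinarith
  have hfn : ∀ I, ‖ψ I‖ ≤ (N I : ℝ) ^ (((0 : ℕ) : ℝ) + 1 / 2) := by
    intro I
    rcases Nat.eq_zero_or_pos (N I) with h0 | h0
    · rw [hfz I h0, norm_zero]
      positivity
    · have hN1 : (1 : ℝ) ≤ N I := by exact_mod_cast h0
      exact (hf1 I).trans (Real.one_le_rpow hN1 (by positivity))
  have hcn : ∀ I, ‖(starRingEnd ℂ) (ψ I)‖ ≤ (N I : ℝ) ^ (((0 : ℕ) : ℝ) + 1 / 2) := by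
    intro I
    rw [RCLike.norm_conj]
    exact hfn I
  have hfib : ∀ n : ℕ, (N ⁻¹' {n}).Finite := by
    intro n
    refine (c1 n).subset ?_
    intro I hI
    have : N I = n := hI
    show nm I ≤ n
    rw [hNn, this]
  set b : ℕ → ℂ := fun n => ∑' I : N ⁻¹' {n}, ψ I with hb
  have hbf : ∀ n, b n = ∑ I ∈ (hfib n).toFinset, ψ I := fun n => fib_fin (hfib n) ψ
  have hbc : ∀ n, ∑' I : N ⁻¹' {n}, (starRingEnd ℂ) (ψ I) = (starRingEnd ℂ) (b n) := by
    intro n
    rw [hbf, fib_fin (hfib n) (fun I => (starRingEnd ℂ) (ψ I)), map_sum]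
  have hb0 : b 0 = 0 := by
    rw [hbf]
    refine Finset.sum_eq_zero fun I hI => ?_
    exact hfz I ((hfib 0).mem_toFinset.1 hI)
  have hbn : ∀ n : ℕ, 1 ≤ n → ‖b n‖ ≤ C * (n : ℝ) ^ (1 : ℝ) := by
    intro n hn
    have hn0 : (0 : ℝ) < n := by exact_mod_cast hn
    have hn1 : (1 : ℝ) ≤ n := by exact_mod_cast hn
    rw [hbf]
    refine (norm_sum_le _ _).trans ((Finset.sum_le_sum (g := fun _ => (1 : ℝ))
      fun I _ => hf1 I).trans ?_)
    rw [Finset.sum_const, nsmul_eq_mul, ← Set.ncard_eq_toFinset_card (N ⁻¹' {n}) (hfib n), mul_one,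
      Real.rpow_one]
    refine le_trans ?_ (c3 n hn1)
    have := Set.ncard_le_ncard (s := N ⁻¹' {n}) (t := {I : Ideal R | nm I ≤ (n : ℝ)}) (by
      intro I hI
      have h8 : N I = n := hI
      show nm I ≤ n
      rw [hNn, h8]) (c1 n)
    exact_mod_cast this
  -- the theta function
  set Rp : ℝ := 2 * ω.im * Real.sqrt (nm q) with hRp
  have hRp0 : 0 < Rp := by positivity
  have hcoef : ∀ x : ℝ, Real.pi * x / (ω.im * Real.sqrt (nm q)) = 2 * Real.pi * x / Rp := by
    intro x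
    rw [hRp]
    field_simp
  have hfe : ∀ t : ℝ, 0 < t → ∑' n : ℕ, b n * (Real.exp (-(2 * Real.pi * n / Rp) / t) : ℂ) =
      Wz ω q hh μ T ψ * (t : ℂ) * ∑' n : ℕ,
        (starRingEnd ℂ) (b n) * (Real.exp (-(2 * Real.pi * n / Rp) * t) : ℂ) := by
    intro t ht
    have hth := h5 R ω hR q ψ hψ hqt s hh μ T hS t ht
    have s1 := summ_f hS1 0 ψ hfn (fun n : ℕ => (Real.exp (-(2 * Real.pi * n / Rp) / t) : ℂ))
      (A := 1) (c := 2 * Real.pi / Rp / t) (by positivity) (by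
        intro n _
        rw [Complex.norm_real, Real.norm_eq_abs, Real.abs_exp, one_mul]
        refine le_of_eq ?_
        congr 1
        ring)
    have s2 := summ_f hS1 0 (fun I => (starRingEnd ℂ) (ψ I)) hcn
      (fun n : ℕ => (Real.exp (-(2 * Real.pi * n / Rp) * t) : ℂ))
      (A := 1) (c := 2 * Real.pi / Rp * t) (by positivity) (by
        intro n _
        rw [Complex.norm_real, Real.norm_eq_abs, Real.abs_exp, one_mul]
        refine le_of_eq ?_
        congr 1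
        ring)
    have e1 := fib (N := N) (f := ψ)
      (fun n : ℕ => (Real.exp (-(2 * Real.pi * n / Rp) / t) : ℂ)) s1
    have e2 := fib (N := N) (f := fun I => (starRingEnd ℂ) (ψ I))
      (fun n : ℕ => (Real.exp (-(2 * Real.pi * n / Rp) * t) : ℂ)) s2
    simp only [hbc] at e2
    rw [← e2]
    refine (e1.symm.trans ?_).trans (hth.trans ?_)
    · refine tsum_congr fun I => ?_
      rw [hcoef, hNn I]
    · congr 1
      refine tsum_congr fun I => ?_
      rw [hcoef, hNn I]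
  obtain ⟨F, hFd, hFs, hFc⟩ := mellinH (b := b) (m := 1) (C := C) (R := Rp)
    hRp0 hb0 zero_le_one hbn hW hfe
  -- extension of the series
  have hFe : ∀ s : ℂ, 1 < s.re → F s = ∑' n : ℕ, b n * (n : ℂ) ^ (-s) := by
    refine fun s hs => ext_series F hFd b hb0 ?_ (1 + 2)
      (fun s hs => ?_) s hs
    · intro s hs
      have k1 := ((hS1 s.re hs).hasSum.tsum_fiberwise N).summable
      refine k1.of_nonneg_of_le (fun n => norm_nonneg _) (fun n => ?_)
      rcases Nat.eq_zero_or_pos n with rfl | hn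
      · rw [hb0, zero_mul, norm_zero]
        exact tsum_nonneg fun I => by positivity
      · have hn0 : (0 : ℝ) < n := by exact_mod_cast hn
        rw [fib_fin (hfib n) (fun I : Ideal R => (N I : ℝ) ^ (-s.re)), hbf, norm_mul]
        have h5 : ‖(n : ℂ) ^ (-s)‖ = (n : ℝ) ^ (-s.re) := by
          rw [Complex.norm_natCast_cpow_of_pos hn]
          simp
        rw [h5]
        refine (mul_le_mul_of_nonneg_right (norm_sum_le _ _) (by positivity)).trans ?_
        rw [Finset.sum_mul]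
        refine Finset.sum_le_sum fun I hI => ?_
        have h6 : N I = n := (hfib n).mem_toFinset.1 hI
        rw [h6]
        calc ‖ψ I‖ * (n : ℝ) ^ (-s.re)
            ≤ 1 * (n : ℝ) ^ (-s.re) :=
              mul_le_mul_of_nonneg_right (hf1 I) (by positivity)
          _ = (n : ℝ) ^ (-s.re) := one_mul _
    · exact hFs s hs
  -- norm of the terms
  have hnrm : ∀ (z : ℂ) (I : Ideal R), 1 < z.re →
      ‖ψ I * ((N I : ℕ) : ℂ) ^ (-z)‖ ≤ (N I : ℝ) ^ (-z.re) := by
    intro z I hz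
    rcases Nat.eq_zero_or_pos (N I) with h0 | h0
    · rw [norm_mul, hfz I h0, norm_zero, zero_mul]
      positivity
    · have hn0 : (0 : ℝ) < N I := by exact_mod_cast h0
      rw [norm_mul, Complex.norm_natCast_cpow_of_pos h0]
      calc ‖ψ I‖ * (N I : ℝ) ^ (-z).re
          ≤ 1 * (N I : ℝ) ^ (-z).re :=
            mul_le_mul_of_nonneg_right (hf1 I) (by positivity)
        _ = (N I : ℝ) ^ (-z.re) := by
            rw [one_mul, Complex.neg_re]
  refine ⟨F, hFd, ?_, ?_⟩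
  · intro s hs
    have hsm : Summable (fun I : Ideal R => ψ I * ((N I : ℕ) : ℂ) ^ (-s)) :=
      Summable.of_norm_bounded (hS1 s.re hs) (fun I => hnrm s I hs)
    have e4 := fib (N := N) (f := ψ) (fun n : ℕ => (n : ℂ) ^ (-s)) hsm
    have e6 : F s = ∑' I : Ideal R, ψ I * ((N I : ℕ) : ℂ) ^ (-s) := by
      rw [hFe _ hs, e4]
    simp only [hNc]
    rw [e6]
    exact hsm.hasSum
  · intro X Y hX hY hXY
    have hXY' : X * Y = Rp ^ 2 / (4 * Real.pi ^ 2) := by
      have hs2 : Real.sqrt (nm q) ^ 2 = nm q := Real.sq_sqrt (by linarith)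
      rw [hXY, hRp, mul_pow, mul_pow, hs2]
      field_simp
      ring
    rw [hFc X Y hX hY hXY']
    obtain ⟨D, hD, hVb⟩ := v0_bound
    have hV : ∀ (g : Ideal R → ℂ), (∀ I, ‖g I‖ ≤ (N I : ℝ) ^ (((0 : ℕ) : ℝ) + 1 / 2)) →
        ∀ Z : ℝ, 0 < Z →
        ∑' n : ℕ, (∑' I : N ⁻¹' {n}, g I) / (Real.sqrt n : ℂ) * (V0 (n / Z) : ℂ) =
        ∑' I : Ideal R, g I / (Real.sqrt (nm I) : ℂ) * (V0 (nm I / Z) : ℂ) := by
      intro g hg Z hZ
      have s3 := summ_f hS1 0 g hg
        (fun n : ℕ => 1 / (Real.sqrt n : ℂ) * (V0 (n / Z) : ℂ))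
        (A := D) (c := 1 / (2 * Z)) (by positivity) (by
          intro n hn
          have hn1 : (1 : ℝ) ≤ n := by exact_mod_cast hn
          rw [norm_mul, norm_div, norm_one, Complex.norm_real, Complex.norm_real,
            Real.norm_eq_abs, Real.norm_eq_abs, abs_of_nonneg (Real.sqrt_nonneg _)]
          have q1 := hVb (n / Z) (by positivity)
          have q2 : 1 / Real.sqrt n ≤ 1 := by
            rw [div_le_one (Real.sqrt_pos.2 (by linarith))]
            exact Real.one_le_sqrt.2 hn1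
          calc 1 / Real.sqrt n * |V0 (n / Z)|
              ≤ 1 * (D * Real.exp (-(n / Z / 2))) :=
                mul_le_mul q2 q1 (abs_nonneg _) zero_le_one
            _ = D * Real.exp (-(1 / (2 * Z) * n)) := by
                rw [one_mul]
                congr 2
                field_simp)
      have e6 := fib (N := N) (f := g)
        (fun n : ℕ => 1 / (Real.sqrt n : ℂ) * (V0 (n / Z) : ℂ)) s3
      refine Eq.trans ?_ (e6.symm.trans ?_)
      · refine tsum_congr fun n => ?_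
        ring
      · refine tsum_congr fun I => ?_
        rw [hNn I]
        ring
    have v1 := hV ψ hfn X hX
    have v2 := hV (fun I => (starRingEnd ℂ) (ψ I)) hcn Y hY
    simp only [hbc] at v2
    rw [show (∑' n : ℕ, b n / (Real.sqrt n : ℂ) * (V0 (n / X) : ℂ)) = _ from v1, v2]

end Pool.Agent.W283.HK
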